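import Pool.Agent.H113R3.WS.Op

/-!
# The weighted shift is weakly 1-sequentially hypercyclic and not hypercyclic
-/

open Filter Topology Set
open scoped BoundedContinuousFunction

namespace Pool.Agent.H113R3.WS

noncomputable section

variable (𝕜 : Type) [RCLike 𝕜]

/-- Approximate right inverse of the `2·3^k`-th power, cut off at the column `k`. -/
def sRaw (g : E 𝕜) (k : ℕ) (p : ℕ × ℕ) : 𝕜 :=
  if 2 * 3 ^ k ≤ p.1 ∧ p.2 ≠ k then
    ((PP (p.1 - 2 * 3 ^ k) p.2 / PP p.1 p.2 : ℝ) : 𝕜) * g (p.1 - 2 * 3 ^ k, p.2)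
  else 0

lemma norm_sRaw_le {g : E 𝕜} {N k : ℕ} (h0 : ∀ i, N ≤ i → ∀ t, g (i, t) = 0)
    (hN : N ≤ 3 ^ k) (p : ℕ × ℕ) :
    ‖sRaw 𝕜 g k p‖ ≤ ‖g‖ * 2 ^ (2 * N) / 2 ^ (3 ^ k) := by
  unfold sRaw
  split_ifs with h
  · obtain ⟨hp, ht⟩ := h
    obtain ⟨i, hi⟩ : ∃ i, p.1 = 2 * 3 ^ k + i := Nat.exists_eq_add_of_le hp
    rw [hi, Nat.add_sub_cancel_left]
    by_cases hiN : N ≤ i
    · rw [h0 i hiN, mul_zero, norm_zero]; positivity
    · push Not at hiN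
      have hik : i < 3 ^ k := by omega
      rw [PP_block hik ht, norm_mul, RCLike.norm_ofReal,
        abs_of_nonneg (div_nonneg (PP_pos _ _).le (by positivity))]
      have h1 : PP i p.2 ≤ 2 ^ i := PP_le _ _
      have h2 : ‖g (i, p.2)‖ ≤ ‖g‖ := g.norm_coe_le_norm _
      have h3 : (2 : ℝ) ^ (3 ^ k) = 2 ^ (3 ^ k - i) * 2 ^ i := by
        rw [← pow_add]; congr 1; omega
      calc PP i p.2 / 2 ^ (3 ^ k - i) * ‖g (i, p.2)‖ ≤ 2 ^ i / 2 ^ (3 ^ k - i) * ‖g‖ := by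
            gcongr
        _ = ‖g‖ * 2 ^ (2 * i) / 2 ^ (3 ^ k) := by
            rw [h3, two_mul, pow_add]
            field_simp
        _ ≤ ‖g‖ * 2 ^ (2 * N) / 2 ^ (3 ^ k) := by
            gcongr
            norm_num
  · rw [norm_zero]; positivity

lemma exists_s {g : E 𝕜} {N k : ℕ} (h0 : ∀ i, N ≤ i → ∀ t, g (i, t) = 0)
    (h1 : ∀ i t, N ≤ t → g (i, t) = g (i, N)) (hN : N ≤ 3 ^ k) :
    ∃ s ∈ V 𝕜, (∀ p, s p = sRaw 𝕜 g k p) ∧ ‖s‖ ≤ ‖g‖ * 2 ^ (2 * N) / 2 ^ (3 ^ k) := by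
  refine ⟨BoundedContinuousFunction.ofNormedAddCommGroupDiscrete (sRaw 𝕜 g k)
    (‖g‖ * 2 ^ (2 * N) / 2 ^ (3 ^ k)) (norm_sRaw_le 𝕜 h0 hN), ?_, fun p => rfl, ?_⟩
  · refine ⟨2 * 3 ^ k + N + k + 1, ?_, ?_⟩
    · intro i hi t
      show sRaw 𝕜 g k (i, t) = 0
      unfold sRaw
      split_ifs with h
      · rw [h0 _ (by simp only; omega), mul_zero]
      · rfl
    · intro i t ht
      show sRaw 𝕜 g k (i, t) = sRaw 𝕜 g k (i, 2 * 3 ^ k + N + k + 1)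
      unfold sRaw
      have a1 : t ≠ k := by omega
      have a2 : 2 * 3 ^ k + N + k + 1 ≠ k := by omega
      by_cases hi : 2 * 3 ^ k ≤ i
      · rw [if_pos ⟨hi, a1⟩, if_pos ⟨hi, a2⟩]
        simp only
        by_cases hiN : N ≤ i - 2 * 3 ^ k
        · rw [h0 _ hiN, h0 _ hiN, mul_zero, mul_zero]
        · have b1 := kk_le i
          have b2 := kk_le (i - 2 * 3 ^ k)
          rw [h1 _ t (by omega), h1 _ (2 * 3 ^ k + N + k + 1) (by omega)]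
          rw [PP_of_ne (n := i - 2 * 3 ^ k) (t := t) (by omega),
            PP_of_ne (n := i) (t := t) (by omega),
            PP_of_ne (n := i - 2 * 3 ^ k) (t := 2 * 3 ^ k + N + k + 1) (by omega),
            PP_of_ne (n := i) (t := 2 * 3 ^ k + N + k + 1) (by omega)]
      · rw [if_neg (fun h => hi h.1), if_neg (fun h => hi h.1)]
  · exact (BoundedContinuousFunction.norm_le (by positivity)).2 (norm_sRaw_le 𝕜 h0 hN)

lemma TE_pow_s_zero {g s : E 𝕜} {N k n : ℕ} (h0 : ∀ i, N ≤ i → ∀ t, g (i, t) = 0)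
    (hN : N ≤ 3 ^ k) (hs : ∀ p, s p = sRaw 𝕜 g k p) (hn : 3 ^ (k + 1) ≤ n) :
    (TE 𝕜 ^ n) s = 0 := by
  ext ⟨a, t⟩
  rw [TE_pow_apply, hs]
  unfold sRaw
  rw [pow_succ] at hn
  split_ifs with h
  · rw [h0 _ (by simp only; omega)]
    simp
  · simp

lemma TE_pow_s_eq {g s : E 𝕜} {k : ℕ} (hs : ∀ p, s p = sRaw 𝕜 g k p) :
    (TE 𝕜 ^ (2 * 3 ^ k)) s = g - ind 𝕜 {p | p.2 = k} * g := by
  ext ⟨a, t⟩
  rw [TE_pow_apply, hs]
  unfold sRaw
  rw [BoundedContinuousFunction.sub_apply, BoundedContinuousFunction.mul_apply, ind_apply]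
  by_cases ht : t = k
  · have : (a, t) ∉ ({p | p.2 = k} : Set (ℕ × ℕ)) → False := fun h => h ht
    rw [if_neg (fun h => h.2 ht)]
    simp [ht]
  · have hmem : (a, t) ∉ ({p | p.2 = k} : Set (ℕ × ℕ)) := ht
    rw [if_pos ⟨by simp only; omega, ht⟩]
    simp only [Nat.add_sub_cancel, Set.indicator_of_notMem hmem, zero_mul, sub_zero]
    rw [← mul_assoc, ← RCLike.ofReal_mul]
    have e1 : PP (a + 2 * 3 ^ k) t / PP a t * (PP a t / PP (a + 2 * 3 ^ k) t) = 1 := by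
      have := PP_ne (a + 2 * 3 ^ k) t
      have := PP_ne a t
      field_simp
    rw [e1]
    simp

lemma norm_ind_le (s : Set (ℕ × ℕ)) : ‖ind 𝕜 s‖ ≤ 1 :=
  (BoundedContinuousFunction.norm_le (by norm_num)).2 (fun p => by
    rw [ind_apply]
    by_cases h : p ∈ s
    · simp [h]
    · simp [h])

lemma norm_ind_mul_le (s : Set (ℕ × ℕ)) (f : E 𝕜) : ‖ind 𝕜 s * f‖ ≤ ‖f‖ :=
  (norm_mul_le _ _).trans (by
    have := norm_ind_le 𝕜 s
    nlinarith [norm_nonneg f])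

/-- Disjointly supported bounded sequences are weakly null. -/
lemma tendsto_ind_mul (ψ : E 𝕜 →L[𝕜] 𝕜) (y : E 𝕜) :
    Tendsto (fun k : ℕ => ψ (ind 𝕜 {p | p.2 = k} * y)) atTop (𝓝 0) := by
  have hsum : Summable (fun k : ℕ => ‖ψ (ind 𝕜 {p | p.2 = k} * y)‖) := by
    apply summable_of_sum_le (c := ‖ψ‖ * ‖y‖) (fun k => norm_nonneg _)
    intro F
    choose θ hθ1 hθ2 using fun k : ℕ =>
      RCLike.exists_norm_eq_mul_self (ψ (ind 𝕜 {p | p.2 = k} * y))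
    have e1 : ((∑ k ∈ F, ‖ψ (ind 𝕜 {p | p.2 = k} * y)‖ : ℝ) : 𝕜) =
        ψ (∑ k ∈ F, θ k • (ind 𝕜 {p | p.2 = k} * y)) := by
      rw [map_sum, RCLike.ofReal_sum]
      apply Finset.sum_congr rfl
      intro k _
      rw [map_smul, smul_eq_mul, hθ2]
    have e2 : ‖∑ k ∈ F, θ k • (ind 𝕜 {p | p.2 = k} * y)‖ ≤ ‖y‖ := by
      apply (BoundedContinuousFunction.norm_le (norm_nonneg _)).2
      rintro ⟨a, b⟩
      rw [BoundedContinuousFunction.coe_sum, Finset.sum_apply]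
      by_cases hb : b ∈ F
      · rw [Finset.sum_eq_single b]
        · rw [BoundedContinuousFunction.smul_apply, BoundedContinuousFunction.mul_apply, ind_apply,
            norm_smul, hθ1, one_mul]
          simp
          exact y.norm_coe_le_norm _
        · intro k _ hk
          rw [BoundedContinuousFunction.smul_apply, BoundedContinuousFunction.mul_apply, ind_apply]
          have : (a, b) ∉ ({p | p.2 = k} : Set (ℕ × ℕ)) := fun h => hk h.symm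
          simp [this]
        · intro h
          exact absurd hb h
      · rw [Finset.sum_eq_zero]
        · simp
        · intro k hk
          rw [BoundedContinuousFunction.smul_apply, BoundedContinuousFunction.mul_apply, ind_apply]
          have : (a, b) ∉ ({p | p.2 = k} : Set (ℕ × ℕ)) := fun h => hb (by
            have h' : b = k := h
            rw [h']
            exact hk)
          simp [this]
    have h3 : 0 ≤ ∑ k ∈ F, ‖ψ (ind 𝕜 {p | p.2 = k} * y)‖ :=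
      Finset.sum_nonneg (fun _ _ => norm_nonneg _)
    calc ∑ k ∈ F, ‖ψ (ind 𝕜 {p | p.2 = k} * y)‖
        = ‖((∑ k ∈ F, ‖ψ (ind 𝕜 {p | p.2 = k} * y)‖ : ℝ) : 𝕜)‖ := by
          rw [RCLike.norm_ofReal, abs_of_nonneg h3]
      _ = ‖ψ (∑ k ∈ F, θ k • (ind 𝕜 {p | p.2 = k} * y))‖ := by rw [e1]
      _ ≤ ‖ψ‖ * ‖∑ k ∈ F, θ k • (ind 𝕜 {p | p.2 = k} * y)‖ := ψ.le_opNorm _
      _ ≤ ‖ψ‖ * ‖y‖ := by gcongr
  exact tendsto_zero_iff_norm_tendsto_zero.2 hsum.tendsto_atTop_zero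

/-- The space. -/
def X : Submodule 𝕜 (E 𝕜) := (V 𝕜).topologicalClosure

lemma isClosed_X : IsClosed (X 𝕜 : Set (E 𝕜)) := Submodule.isClosed_topologicalClosure _

instance : CompleteSpace (X 𝕜) := (isClosed_X 𝕜).completeSpace_coe

lemma V_le_X : V 𝕜 ≤ X 𝕜 := Submodule.le_topologicalClosure _

lemma TE_mem_X {f : E 𝕜} (hf : f ∈ X 𝕜) : TE 𝕜 f ∈ X 𝕜 :=
  map_mem_closure (TE 𝕜).continuous hf (fun _ h => TE_mem_V 𝕜 h)

/-- The operator on the space. -/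
def TX : X 𝕜 →L[𝕜] X 𝕜 :=
  ((TE 𝕜).comp (X 𝕜).subtypeL).codRestrict (X 𝕜) (fun x => TE_mem_X 𝕜 x.2)

lemma TX_coe (x : X 𝕜) : ((TX 𝕜 x : X 𝕜) : E 𝕜) = TE 𝕜 x := rfl

lemma TX_pow_coe (n : ℕ) (x : X 𝕜) : (((TX 𝕜 ^ n) x : X 𝕜) : E 𝕜) = (TE 𝕜 ^ n) x := by
  induction n with
  | zero => rfl
  | succ n ih =>
    rw [pow_succ', pow_succ']
    show ((TX 𝕜 ((TX 𝕜 ^ n) x) : X 𝕜) : E 𝕜) = TE 𝕜 ((TE 𝕜 ^ n) x)
    rw [TX_coe, ih]

lemma isSeparable_X : TopologicalSpace.IsSeparable (X 𝕜 : Set (E 𝕜)) :=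
  (isSeparable_V 𝕜).closure

lemma not_hypercyclic (x : X 𝕜) : ¬ Dense (range fun n : ℕ => (TX 𝕜 ^ n) x) := by
  intro hd
  have hmem : ind 𝕜 {p | p.1 = 0} ∈ V 𝕜 := by
    refine ⟨1, ?_, ?_⟩
    · intro i hi t
      rw [ind_apply]
      have : (i, t) ∉ ({p | p.1 = 0} : Set (ℕ × ℕ)) := by simp; omega
      simp [this]
    · intro i t _
      rw [ind_apply, ind_apply]
      by_cases h : i = 0
      · simp [h]
      · have h1 : (i, t) ∉ ({p | p.1 = 0} : Set (ℕ × ℕ)) := h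
        have h2 : (i, 1) ∉ ({p | p.1 = 0} : Set (ℕ × ℕ)) := h
        simp [h1, h2]
  set y : X 𝕜 := (((‖x‖ + 1 : ℝ)) : 𝕜) • (⟨ind 𝕜 {p | p.1 = 0}, V_le_X 𝕜 hmem⟩ : X 𝕜) with hy
  obtain ⟨z, ⟨n, rfl⟩, hn⟩ := hd.exists_dist_lt y (zero_lt_one)
  have h1 : ‖((y : E 𝕜) - (TE 𝕜 ^ n) (x : E 𝕜)) (0, kk n)‖ < 1 := by
    refine lt_of_le_of_lt (BoundedContinuousFunction.norm_coe_le_norm _ _) ?_
    rw [← TX_pow_coe]
    rw [dist_eq_norm] at hn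
    exact hn
  rw [BoundedContinuousFunction.sub_apply, TE_pow_apply, PP_zero, zero_add, PP_self] at h1
  have h2 : (y : E 𝕜) (0, kk n) = ((‖x‖ + 1 : ℝ) : 𝕜) := by
    show (((‖x‖ + 1 : ℝ) : 𝕜) • (ind 𝕜 {p | p.1 = 0})) (0, kk n) = _
    rw [BoundedContinuousFunction.smul_apply, ind_apply]
    simp
  rw [h2] at h1
  have h3 : ‖(x : E 𝕜) (n, kk n)‖ ≤ ‖x‖ := (x : E 𝕜).norm_coe_le_norm _
  have h4 : ‖((‖x‖ + 1 : ℝ) : 𝕜)‖ = ‖x‖ + 1 := by
    rw [RCLike.norm_ofReal, abs_of_nonneg (by positivity)]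
  have h5 := norm_sub_norm_le ((‖x‖ + 1 : ℝ) : 𝕜) (((1 / 1 : ℝ) : 𝕜) * (x : E 𝕜) (n, kk n))
  have h6 : ‖((1 / 1 : ℝ) : 𝕜) * (x : E 𝕜) (n, kk n)‖ = ‖(x : E 𝕜) (n, kk n)‖ := by simp
  rw [h4, h6] at h5
  linarith

lemma exists_data : ∃ (g : ℕ → E 𝕜) (κ : ℕ → ℕ) (s : ℕ → E 𝕜), StrictMono κ ∧
    (∀ j, s j ∈ V 𝕜) ∧ (∀ j m, m ≤ 2 * 3 ^ (κ j - 1) → ‖(TE 𝕜 ^ m) (s j)‖ ≤ (1 / 2) ^ j) ∧
    (∀ j, 1 ≤ κ j) ∧
    (∀ j n, 3 ^ (κ j + 1) ≤ n → (TE 𝕜 ^ n) (s j) = 0) ∧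
    (∀ j, (TE 𝕜 ^ (2 * 3 ^ κ j)) (s j) = g j - ind 𝕜 {p | p.2 = κ j} * g j) ∧
    (∀ y ∈ X 𝕜, ∀ ε > 0, ∃ᶠ j in atTop, ‖g j - y‖ < ε) := by
  obtain ⟨c, hcV, hcc, hcd⟩ := (isSeparable_V 𝕜).exists_countable_dense_subset
  have hne : c.Nonempty := by
    rw [← closure_nonempty_iff]
    exact ⟨0, hcd (V 𝕜).zero_mem⟩
  obtain ⟨d, hd⟩ := hcc.exists_eq_range hne
  have hdV : ∀ j, d j ∈ V 𝕜 := fun j => hcV (hd ▸ mem_range_self j)
  set g : ℕ → E 𝕜 := fun j => d (Nat.unpair j).1 with hg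
  have hgV : ∀ j, g j ∈ V 𝕜 := fun j => hdV _
  choose N hN1 hN2 using fun j => (mem_V 𝕜).1 (hgV j)
  obtain ⟨κ, hκ, hP⟩ := extraction_forall_of_eventually
    (P := fun j k => 1 ≤ k ∧ N j ≤ 3 ^ k ∧ ‖g j‖ * 2 ^ (2 * N j) * 2 ^ j ≤ (2 : ℝ) ^ (3 ^ (k - 1)))
    (by
      intro j
      have t1 : Tendsto (fun k : ℕ => 3 ^ k) atTop atTop :=
        tendsto_pow_atTop_atTop_of_one_lt (by norm_num : (1 : ℕ) < 3)
      have t2 : Tendsto (fun k : ℕ => (2 : ℝ) ^ (3 ^ (k - 1))) atTop atTop :=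
        (tendsto_pow_atTop_atTop_of_one_lt (one_lt_two)).comp (t1.comp (tendsto_sub_atTop_nat 1))
      filter_upwards [eventually_ge_atTop 1, t1.eventually_ge_atTop (N j),
        t2.eventually_ge_atTop (‖g j‖ * 2 ^ (2 * N j) * 2 ^ j)] with k a b c
      exact ⟨a, b, c⟩)
  choose s hsV hs1 hs2 using fun j => exists_s 𝕜 (hN1 j) (hN2 j) (hP j).2.1
  refine ⟨g, κ, s, hκ, hsV, ?_, fun j => (hP j).1, ?_, ?_, ?_⟩
  · intro j m hm
    obtain ⟨hP1, hP2, hP3⟩ := hP j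
    have e1 : 3 ^ κ j = 3 ^ (κ j - 1) * 3 := by
      rw [← pow_succ]; congr 1; omega
    set A := 3 ^ (κ j - 1) with hA
    have e2 := hs2 j
    rw [e1] at e2
    calc ‖(TE 𝕜 ^ m) (s j)‖ ≤ 2 ^ m * ‖s j‖ := norm_TE_pow_apply_le 𝕜 m _
      _ ≤ 2 ^ (2 * A) * (‖g j‖ * 2 ^ (2 * N j) / 2 ^ (A * 3)) := by
          gcongr
          norm_num
      _ = ‖g j‖ * 2 ^ (2 * N j) / 2 ^ A := by
          have : (2 : ℝ) ^ (A * 3) = 2 ^ (2 * A) * 2 ^ A := by rw [← pow_add]; congr 1; ring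
          rw [this]
          field_simp
      _ ≤ (1 / 2) ^ j := by
          rw [div_le_iff₀ (by positivity), one_div, inv_pow, inv_mul_eq_div,
            le_div_iff₀ (by positivity)]
          exact hP3
  · intro j n hn
    exact TE_pow_s_zero 𝕜 (hN1 j) (hP j).2.1 (hs1 j) hn
  · intro j
    exact TE_pow_s_eq 𝕜 (hs1 j)
  · intro y hy ε hε
    have hy' : y ∈ closure c := by
      have : closure (V 𝕜 : Set (E 𝕜)) ⊆ closure c := closure_minimal hcd isClosed_closure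
      exact this hy
    obtain ⟨z, hz, hzy⟩ := Metric.mem_closure_iff.1 hy' ε hε
    rw [hd] at hz
    obtain ⟨a, rfl⟩ := hz
    rw [frequently_atTop]
    intro b
    refine ⟨Nat.pair a b, Nat.right_le_pair a b, ?_⟩
    simp only [hg, Nat.unpair_pair]
    rw [← dist_eq_norm, dist_comm]
    exact hzy

theorem weakly_one_seq : ∃ x : X 𝕜, ∀ y : X 𝕜, ∃ n : ℕ → ℕ, StrictMono n ∧
    ∀ φ : X 𝕜 →L[𝕜] 𝕜, Tendsto (fun k => φ ((TX 𝕜 ^ n k) x)) atTop (𝓝 (φ y)) := by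
  obtain ⟨g, κ, s, hκ, hsV, hsm, hκ1, hs0, hseq, hfreq⟩ := exists_data 𝕜
  set sX : ℕ → X 𝕜 := fun j => ⟨s j, V_le_X 𝕜 (hsV j)⟩ with hsX
  have hgeo : Summable (fun j : ℕ => ((1 : ℝ) / 2) ^ j) := summable_geometric_two
  have hsumX : Summable sX := by
    apply Summable.of_norm_bounded hgeo
    intro j
    have := hsm j 0 (Nat.zero_le _)
    simpa using this
  set x : X 𝕜 := ∑' j, sX j with hx
  have hxE : (x : E 𝕜) = ∑' j, s j := (X 𝕜).subtypeL.map_tsum hsumX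
  have hsumE : Summable s := hsumX.map (X 𝕜).subtypeL (X 𝕜).subtypeL.continuous
  refine ⟨x, ?_⟩
  have herr : ∀ j, ‖(TE 𝕜 ^ (2 * 3 ^ κ j)) (x : E 𝕜) -
      (g j - ind 𝕜 {p | p.2 = κ j} * g j)‖ ≤ (1 / 2) ^ j := by
    intro j
    set n := 2 * 3 ^ κ j with hn
    have h1 : (TE 𝕜 ^ n) (x : E 𝕜) = ∑' i, (TE 𝕜 ^ n) (s i) := by
      rw [hxE]
      exact (TE 𝕜 ^ n).map_tsum hsumE
    have hsum' : Summable (fun i => (TE 𝕜 ^ n) (s i)) := (TE 𝕜 ^ n).summable hsumE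
    have h2 := hsum'.sum_add_tsum_nat_add (j + 1)
    have h3 : ∑ i ∈ Finset.range (j + 1), (TE 𝕜 ^ n) (s i) =
        g j - ind 𝕜 {p | p.2 = κ j} * g j := by
      rw [Finset.sum_range_succ, Finset.sum_eq_zero, zero_add]
      · exact hseq j
      · intro i hi
        apply hs0 i
        have hlt : κ i < κ j := hκ (Finset.mem_range.1 hi)
        have : 3 ^ (κ i + 1) ≤ 3 ^ κ j := Nat.pow_le_pow_right (by norm_num) hlt
        omega
    rw [h1, ← h2, h3, add_sub_cancel_left]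
    have h4 : HasSum (fun i : ℕ => ((1 : ℝ) / 2) ^ (i + (j + 1))) ((1 / 2) ^ j) := by
      have := hasSum_geometric_two.mul_right (((1 : ℝ) / 2) ^ (j + 1))
      have e : (2 : ℝ) * (1 / 2) ^ (j + 1) = (1 / 2) ^ j := by rw [pow_succ]; ring
      rw [e] at this
      simpa [pow_add] using this
    apply tsum_of_norm_bounded h4
    intro i
    apply hsm
    have hlt : κ j < κ (i + (j + 1)) := hκ (by omega)
    have : 3 ^ κ j ≤ 3 ^ (κ (i + (j + 1)) - 1) :=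
      Nat.pow_le_pow_right (by norm_num) (by omega)
    omega
  intro y
  obtain ⟨σ, hσ, hσP⟩ := extraction_forall_of_frequently
    (P := fun m j => ‖g j - (y : E 𝕜)‖ < 1 / ((m : ℝ) + 1))
    (fun m => hfreq y y.2 _ (by positivity))
  refine ⟨fun m => 2 * 3 ^ κ (σ m), ?_, ?_⟩
  · intro a b hab
    have : 3 ^ κ (σ a) < 3 ^ κ (σ b) := Nat.pow_lt_pow_right (by norm_num) (hκ (hσ hab))
    simp only
    omega
  · intro φ
    obtain ⟨ψ, hψ, -⟩ := exists_extension_norm_eq (X 𝕜) φ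
    set D : ℕ → E 𝕜 := fun m => (TE 𝕜 ^ (2 * 3 ^ κ (σ m))) (x : E 𝕜) - y +
      ind 𝕜 {p | p.2 = κ (σ m)} * y with hD
    have hDle : ∀ m, ‖D m‖ ≤ (1 / 2) ^ (σ m) + 2 * (1 / ((m : ℝ) + 1)) := by
      intro m
      have e1 : D m = ((TE 𝕜 ^ (2 * 3 ^ κ (σ m))) (x : E 𝕜) -
          (g (σ m) - ind 𝕜 {p | p.2 = κ (σ m)} * g (σ m))) +
          ((g (σ m) - y) - ind 𝕜 {p | p.2 = κ (σ m)} * (g (σ m) - y)) := by
        simp only [hD, mul_sub]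
        abel
      rw [e1]
      refine (norm_add_le _ _).trans (add_le_add (herr _) ?_)
      refine (norm_sub_le _ _).trans ?_
      have := norm_ind_mul_le 𝕜 {p | p.2 = κ (σ m)} (g (σ m) - y)
      have := hσP m
      linarith
    have hD0 : Tendsto D atTop (𝓝 0) := by
      apply squeeze_zero_norm hDle
      have t1 : Tendsto (fun m => ((1 : ℝ) / 2) ^ (σ m)) atTop (𝓝 0) :=
        (tendsto_pow_atTop_nhds_zero_of_lt_one (by norm_num) (by norm_num)).comp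
          hσ.tendsto_atTop
      have t2 : Tendsto (fun m : ℕ => 2 * ((1 : ℝ) / ((m : ℝ) + 1))) atTop (𝓝 (2 * 0)) :=
        tendsto_one_div_add_atTop_nhds_zero_nat.const_mul 2
      have := t1.add t2
      simpa using this
    have hψD : Tendsto (fun m => ψ (D m)) atTop (𝓝 0) := by
      have := (ψ.continuous.tendsto 0).comp hD0
      rw [map_zero] at this
      exact this
    have hψy : Tendsto (fun m => ψ (ind 𝕜 {p | p.2 = κ (σ m)} * (y : E 𝕜))) atTop (𝓝 0) :=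
      (tendsto_ind_mul 𝕜 ψ y).comp (hκ.comp hσ).tendsto_atTop
    have hlim := (hψD.sub hψy).add_const (ψ (y : E 𝕜))
    rw [sub_zero, zero_add, hψ] at hlim
    refine hlim.congr (fun m => ?_)
    show ψ (D m) - ψ (ind 𝕜 {p | p.2 = κ (σ m)} * (y : E 𝕜)) + φ y =
      φ ((TX 𝕜 ^ (2 * 3 ^ κ (σ m))) x)
    rw [← hψ y, ← hψ ((TX 𝕜 ^ (2 * 3 ^ κ (σ m))) x), TX_pow_coe]
    simp only [hD]
    rw [map_add, map_sub]
    ring

end

end Pool.Agent.H113R3.WS
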