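import Mathlib

/-!
# A weighted shift on a `c₀(ℕ; c)`-space: weights and the operator
-/

open Filter Topology Set
open scoped BoundedContinuousFunction

namespace Pool.Agent.H113R3.WS

noncomputable section

/-- Index of the block `[3^k, 3^(k+1))` containing `n`. -/
def kk (n : ℕ) : ℕ := Nat.log 3 n

/-- Tent function on each block. -/
def hh (n : ℕ) : ℕ := min (n - 3 ^ kk n) (3 ^ (kk n + 1) - n)

/-- Products of the weights. -/
def PP (n t : ℕ) : ℝ := if t = kk n then 1 else 2 ^ hh n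

lemma kk_le (n : ℕ) : kk n ≤ n := Nat.log_le_self 3 n

lemma hh_le (n : ℕ) : hh n ≤ n := (min_le_left _ _).trans (Nat.sub_le _ _)

lemma one_le_PP (n t : ℕ) : 1 ≤ PP n t := by
  unfold PP
  split_ifs
  · exact le_rfl
  · exact one_le_pow₀ (by norm_num)

lemma PP_pos (n t : ℕ) : 0 < PP n t := lt_of_lt_of_le one_pos (one_le_PP n t)

lemma PP_ne (n t : ℕ) : PP n t ≠ 0 := (PP_pos n t).ne'

lemma PP_le (n t : ℕ) : PP n t ≤ 2 ^ n := by
  unfold PP
  split_ifs
  · exact one_le_pow₀ (by norm_num)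
  · exact pow_le_pow_right₀ (by norm_num) (hh_le n)

lemma PP_self (n : ℕ) : PP n (kk n) = 1 := by simp [PP]

lemma PP_of_ne {n t : ℕ} (h : t ≠ kk n) : PP n t = 2 ^ hh n := by simp [PP, h]

lemma PP_zero (t : ℕ) : PP 0 t = 1 := by
  unfold PP
  split_ifs
  · rfl
  · simp [hh]

lemma kk_succ_ne {n : ℕ} (h : kk (n + 1) ≠ kk n) : hh (n + 1) = 0 := by
  have hmono : kk n ≤ kk (n + 1) := Nat.log_mono_right (Nat.le_succ n)
  have hlt : kk n < kk (n + 1) := lt_of_le_of_ne hmono (Ne.symm h)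
  have h1 : n < 3 ^ kk (n + 1) := Nat.lt_pow_of_log_lt (by norm_num) hlt
  have h2 : 3 ^ kk (n + 1) ≤ n + 1 := Nat.pow_log_le_self 3 (Nat.succ_ne_zero n)
  have h3 : n + 1 = 3 ^ kk (n + 1) := le_antisymm h1 h2
  unfold hh
  rw [← h3]
  simp

lemma hh_succ_le (n : ℕ) : hh (n + 1) ≤ hh n + 1 := by
  by_cases h : kk (n + 1) = kk n
  · unfold hh
    rw [h]
    generalize 3 ^ kk n = A
    generalize 3 ^ (kk n + 1) = B
    omega
  · rw [kk_succ_ne h]
    exact Nat.zero_le _

lemma PP_succ_le (n t : ℕ) : PP (n + 1) t ≤ 2 * PP n t := by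
  by_cases h : kk (n + 1) = kk n
  · by_cases ht : t = kk n
    · have h1 : PP (n + 1) t = 1 := by rw [ht, ← h]; exact PP_self _
      rw [h1]
      linarith [one_le_PP n t]
    · rw [PP_of_ne ht, PP_of_ne (h ▸ ht), ← pow_succ']
      exact pow_le_pow_right₀ (by norm_num) (hh_succ_le n)
  · have h1 : PP (n + 1) t = 1 := by
      unfold PP
      rw [kk_succ_ne h]
      simp
    rw [h1]
    linarith [one_le_PP n t]

lemma kk_block {k i : ℕ} (hi : i < 3 ^ k) : kk (2 * 3 ^ k + i) = k := by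
  apply (Nat.log_eq_iff (Or.inr ⟨by norm_num, by positivity⟩)).2
  constructor
  · omega
  · rw [pow_succ]; omega

lemma hh_block {k i : ℕ} (hi : i < 3 ^ k) : hh (2 * 3 ^ k + i) = 3 ^ k - i := by
  unfold hh
  rw [kk_block hi, pow_succ]
  omega

lemma PP_block {k i t : ℕ} (hi : i < 3 ^ k) (ht : t ≠ k) :
    PP (2 * 3 ^ k + i) t = 2 ^ (3 ^ k - i) := by
  rw [PP_of_ne (by rwa [kk_block hi]), hh_block hi]

variable (𝕜 : Type) [RCLike 𝕜]

/-- Bounded functions on `ℕ × ℕ`. -/
abbrev E := (ℕ × ℕ) →ᵇ 𝕜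

/-- The weight function. -/
def wt : E 𝕜 :=
  BoundedContinuousFunction.ofNormedAddCommGroupDiscrete
    (fun p => ((PP (p.1 + 1) p.2 / PP p.1 p.2 : ℝ) : 𝕜)) 2 (by
      intro p
      rw [RCLike.norm_ofReal, abs_of_nonneg (div_nonneg (PP_pos _ _).le (PP_pos _ _).le),
        div_le_iff₀ (PP_pos _ _)]
      exact PP_succ_le _ _)

lemma wt_apply (i t : ℕ) : wt 𝕜 (i, t) = ((PP (i + 1) t / PP i t : ℝ) : 𝕜) := rfl

lemma norm_wt_le : ‖wt 𝕜‖ ≤ 2 :=
  (BoundedContinuousFunction.norm_le (by norm_num)).2 (fun p => by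
    show ‖((PP (p.1 + 1) p.2 / PP p.1 p.2 : ℝ) : 𝕜)‖ ≤ 2
    rw [RCLike.norm_ofReal, abs_of_nonneg (div_nonneg (PP_pos _ _).le (PP_pos _ _).le),
        div_le_iff₀ (PP_pos _ _)]
    exact PP_succ_le _ _)

/-- The shift `(i, t) ↦ (i + 1, t)`. -/
def sh : C(ℕ × ℕ, ℕ × ℕ) := ⟨fun p => (p.1 + 1, p.2), continuous_of_discreteTopology⟩

/-- The weighted backward shift on bounded functions. -/
def TE : E 𝕜 →L[𝕜] E 𝕜 :=
  LinearMap.mkContinuous
    { toFun := fun f => wt 𝕜 * f.compContinuous sh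
      map_add' := by
        intro f g
        ext p
        simp [mul_add]
      map_smul' := by
        intro c f
        ext p
        simp
        ring } 2 (by
      intro f
      show ‖wt 𝕜 * f.compContinuous sh‖ ≤ 2 * ‖f‖
      calc ‖wt 𝕜 * f.compContinuous sh‖ ≤ ‖wt 𝕜‖ * ‖f.compContinuous sh‖ := norm_mul_le _ _
        _ ≤ 2 * ‖f‖ := by
          apply mul_le_mul (norm_wt_le 𝕜) _ (norm_nonneg _) (by norm_num)
          exact (BoundedContinuousFunction.norm_le (norm_nonneg _)).2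
            (fun p => f.norm_coe_le_norm _))

lemma TE_apply (f : E 𝕜) (i t : ℕ) :
    TE 𝕜 f (i, t) = ((PP (i + 1) t / PP i t : ℝ) : 𝕜) * f (i + 1, t) := rfl

lemma norm_TE_le : ‖TE 𝕜‖ ≤ 2 := LinearMap.mkContinuous_norm_le _ (by norm_num) _

lemma TE_pow_apply (n : ℕ) (f : E 𝕜) (i t : ℕ) :
    (TE 𝕜 ^ n) f (i, t) = ((PP (i + n) t / PP i t : ℝ) : 𝕜) * f (i + n, t) := by
  induction n generalizing i with
  | zero => simp [div_self (PP_ne i t)]
  | succ n ih =>
    rw [pow_succ']
    show TE 𝕜 ((TE 𝕜 ^ n) f) (i, t) = _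
    rw [TE_apply, ih (i + 1)]
    have h1 : i + 1 + n = i + (n + 1) := by ring
    rw [h1, ← mul_assoc, ← RCLike.ofReal_mul]
    congr 2
    have := PP_ne (i + 1) t
    have := PP_ne i t
    field_simp

lemma norm_TE_pow_apply_le (n : ℕ) (f : E 𝕜) : ‖(TE 𝕜 ^ n) f‖ ≤ 2 ^ n * ‖f‖ := by
  induction n with
  | zero => simp
  | succ n ih =>
    rw [pow_succ']
    show ‖TE 𝕜 ((TE 𝕜 ^ n) f)‖ ≤ _
    calc ‖TE 𝕜 ((TE 𝕜 ^ n) f)‖ ≤ ‖TE 𝕜‖ * ‖(TE 𝕜 ^ n) f‖ := ContinuousLinearMap.le_opNorm _ _
      _ ≤ 2 * (2 ^ n * ‖f‖) := mul_le_mul (norm_TE_le 𝕜) ih (norm_nonneg _) (by norm_num)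
      _ = 2 ^ (n + 1) * ‖f‖ := by ring

/-- Functions with finitely many nonzero levels, each level being eventually constant. -/
def V : Submodule 𝕜 (E 𝕜) where
  carrier := {f | ∃ N : ℕ, (∀ i, N ≤ i → ∀ t, f (i, t) = 0) ∧
    (∀ i t, N ≤ t → f (i, t) = f (i, N))}
  zero_mem' := ⟨0, by simp, by simp⟩
  add_mem' := by
    rintro f g ⟨N, h1, h2⟩ ⟨M, h3, h4⟩
    refine ⟨max N M, ?_, ?_⟩
    · intro i hi t
      simp [h1 i (le_trans (le_max_left _ _) hi) t, h3 i (le_trans (le_max_right _ _) hi) t]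
    · intro i t ht
      have a1 := h2 i t (le_trans (le_max_left _ _) ht)
      have a2 := h2 i (max N M) (le_max_left _ _)
      have a3 := h4 i t (le_trans (le_max_right _ _) ht)
      have a4 := h4 i (max N M) (le_max_right _ _)
      simp [a1, a2, a3, a4]
  smul_mem' := by
    rintro c f ⟨N, h1, h2⟩
    refine ⟨N, ?_, ?_⟩
    · intro i hi t
      simp [h1 i hi t]
    · intro i t ht
      simp [h2 i t ht]

lemma mem_V {f : E 𝕜} : f ∈ V 𝕜 ↔ ∃ N : ℕ, (∀ i, N ≤ i → ∀ t, f (i, t) = 0) ∧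
    (∀ i t, N ≤ t → f (i, t) = f (i, N)) := Iff.rfl

lemma TE_mem_V {f : E 𝕜} (hf : f ∈ V 𝕜) : TE 𝕜 f ∈ V 𝕜 := by
  obtain ⟨N, h1, h2⟩ := hf
  refine ⟨N, ?_, ?_⟩
  · intro i hi t
    rw [TE_apply, h1 (i + 1) (by omega) t, mul_zero]
  · intro i t ht
    rw [TE_apply, TE_apply]
    by_cases hi : N ≤ i + 1
    · rw [h1 _ hi, h1 _ hi, mul_zero, mul_zero]
    · have k1 := kk_le (i + 1)
      have k2 := kk_le i
      rw [h2 (i + 1) t ht, PP_of_ne (n := i + 1) (t := t) (by omega),
        PP_of_ne (n := i) (t := t) (by omega), PP_of_ne (n := i + 1) (t := N) (by omega),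
        PP_of_ne (n := i) (t := N) (by omega)]

/-- Indicator functions. -/
def ind (s : Set (ℕ × ℕ)) : E 𝕜 :=
  BoundedContinuousFunction.ofNormedAddCommGroupDiscrete (s.indicator (fun _ => (1 : 𝕜))) 1
    (fun p => by
      by_cases h : p ∈ s
      · simp [h]
      · simp [h])

lemma ind_apply (s : Set (ℕ × ℕ)) (p : ℕ × ℕ) :
    ind 𝕜 s p = s.indicator (fun _ => (1 : 𝕜)) p := rfl

lemma V_le_span : (V 𝕜 : Set (E 𝕜)) ⊆
    Submodule.span 𝕜 (range (fun i : ℕ => ind 𝕜 {p | p.1 = i}) ∪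
      range (fun q : ℕ × ℕ => ind 𝕜 {q})) := by
  rintro f ⟨N, h1, h2⟩
  have key : f = ∑ i ∈ Finset.range N, (f (i, N) • ind 𝕜 {p | p.1 = i} +
      ∑ t ∈ Finset.range N, (f (i, t) - f (i, N)) • ind 𝕜 {(i, t)}) := by
    ext ⟨a, b⟩
    rw [BoundedContinuousFunction.coe_sum, Finset.sum_apply]
    by_cases ha : a < N
    · rw [Finset.sum_eq_single a]
      · rw [BoundedContinuousFunction.add_apply, BoundedContinuousFunction.coe_sum,
          Finset.sum_apply, BoundedContinuousFunction.smul_apply, ind_apply]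
        by_cases hb : b < N
        · rw [Finset.sum_eq_single b]
          · rw [BoundedContinuousFunction.smul_apply, ind_apply]
            simp
          · intro t _ hne
            rw [BoundedContinuousFunction.smul_apply, ind_apply]
            have : (a, b) ∉ ({(a, t)} : Set (ℕ × ℕ)) := by
              simp; exact fun h => hne h.symm
            simp [this]
          · intro h
            exact absurd (Finset.mem_range.2 hb) h
        · rw [Finset.sum_eq_zero]
          · rw [h2 a b (not_lt.1 hb)]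
            simp
          · intro t ht
            rw [BoundedContinuousFunction.smul_apply, ind_apply]
            have : (a, b) ∉ ({(a, t)} : Set (ℕ × ℕ)) := by
              simp
              intro h
              rw [Finset.mem_range] at ht
              omega
            simp [this]
      · intro i _ hne
        rw [BoundedContinuousFunction.add_apply, BoundedContinuousFunction.coe_sum,
          Finset.sum_apply, BoundedContinuousFunction.smul_apply, ind_apply, Finset.sum_eq_zero]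
        · have : (a, b) ∉ ({p | p.1 = i} : Set (ℕ × ℕ)) := by
            simp; exact fun h => hne h.symm
          simp [this]
        · intro t _
          rw [BoundedContinuousFunction.smul_apply, ind_apply]
          have : (a, b) ∉ ({(i, t)} : Set (ℕ × ℕ)) := by
            simp
            intro h
            exact absurd h.symm hne
          simp [this]
      · intro h
        exact absurd (Finset.mem_range.2 ha) h
    · rw [h1 a (not_lt.1 ha) b, Finset.sum_eq_zero]
      intro i hi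
      rw [Finset.mem_range] at hi
      rw [BoundedContinuousFunction.add_apply, BoundedContinuousFunction.coe_sum,
          Finset.sum_apply, BoundedContinuousFunction.smul_apply, ind_apply, Finset.sum_eq_zero]
      · have : (a, b) ∉ ({p | p.1 = i} : Set (ℕ × ℕ)) := by
          simp; omega
        simp [this]
      · intro t _
        rw [BoundedContinuousFunction.smul_apply, ind_apply]
        have : (a, b) ∉ ({(i, t)} : Set (ℕ × ℕ)) := by
          simp; omega
        simp [this]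
  rw [key]
  refine Submodule.sum_mem _ (fun i _ => Submodule.add_mem _ ?_ (Submodule.sum_mem _ ?_))
  · exact Submodule.smul_mem _ _ (Submodule.subset_span (Or.inl ⟨i, rfl⟩))
  · intro t _
    exact Submodule.smul_mem _ _ (Submodule.subset_span (Or.inr ⟨(i, t), rfl⟩))

lemma isSeparable_V : TopologicalSpace.IsSeparable (V 𝕜 : Set (E 𝕜)) := by
  refine TopologicalSpace.IsSeparable.mono ?_ (V_le_span 𝕜)
  apply TopologicalSpace.IsSeparable.span
  exact (Set.Countable.union (countable_range _) (countable_range _)).isSeparable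

end

end Pool.Agent.H113R3.WS
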